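import Pool.Agent.Y110.FJ.Stm

/-!
HNN extensions with a homomorphism to a group `P` which is injective on the base embed in
`F(P / A) ⋊ P` (project FJ of helper110).
-/

set_option autoImplicit false

namespace Pool.Agent.Y576.FJ

open Pool.Agent.Y110.FJ
open HNNExtension

section

variable {M P : Type} [Group M] [Group P] {A B : Subgroup M} {φ : A ≃* B}
  (f : HNNExtension M A B φ →* P)

/-- the image of the associated subgroup -/
abbrev SA : Subgroup P := A.map (f.comp HNNExtension.of)

/-- the target -/
abbrev HH : Type := FreeGroup (P ⧸ SA f) ⋊[permAut (P ⧸ SA f) P] P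

theorem act_of (x : P ⧸ SA f) (p : P) :
    permAut (P ⧸ SA f) P p (FreeGroup.of x) = FreeGroup.of (p • x) := rfl

theorem act_act (p q : P) (z : FreeGroup (P ⧸ SA f)) :
    permAut (P ⧸ SA f) P p (permAut (P ⧸ SA f) P q z) = permAut (P ⧸ SA f) P (p * q) z := by
  rw [map_mul]
  rfl

theorem smul_mk (p q : P) : p • (QuotientGroup.mk q : P ⧸ SA f) = QuotientGroup.mk (p * q) := rfl

theorem f_rel (a : A) : f (of (φ a : M)) * f t = f t * f (of (a : M)) := by
  rw [← map_mul, ← map_mul, t_mul_of]

theorem mem_SA (a : A) : f (of (a : M)) ∈ SA f :=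
  ⟨(a : M), a.2, rfl⟩

/-- the letter -/
def zl : FreeGroup (P ⧸ SA f) := FreeGroup.of (QuotientGroup.mk (1 : P))

theorem act_zl (p : P) : permAut (P ⧸ SA f) P p (zl f) =
    FreeGroup.of (QuotientGroup.mk p : P ⧸ SA f) := by
  unfold zl
  rw [act_of, smul_mk, mul_one]

/-- the embedding -/
noncomputable def Th : HNNExtension M A B φ →* HH f :=
  HNNExtension.lift ((SemidirectProduct.inr : P →* HH f).comp (f.comp of))
    (SemidirectProduct.inr (f t) * SemidirectProduct.inl (zl f)) (by
      intro a
      apply SemidirectProduct.ext
      · have h1 : permAut (P ⧸ SA f) P (f (of (φ a : M))) (permAut (P ⧸ SA f) P (f t) (zl f)) =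
            permAut (P ⧸ SA f) P (f t) (zl f) := by
          rw [act_act, f_rel, act_zl, act_zl]
          congr 1
          apply QuotientGroup.eq.2
          have h2 : (f t * f (of (a : M)))⁻¹ * f t = (f (of (a : M)))⁻¹ := by group
          rw [h2]
          exact inv_mem (mem_SA f a)
        simp only [SemidirectProduct.mul_left, SemidirectProduct.left_inr,
          SemidirectProduct.right_inr, SemidirectProduct.left_inl, MonoidHom.comp_apply,
          one_mul, map_one, mul_one]
        exact h1.symm
      · simp only [SemidirectProduct.mul_right, SemidirectProduct.right_inr,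
          SemidirectProduct.right_inl, MonoidHom.comp_apply, mul_one]
        exact (f_rel f a).symm)

theorem Th_of (m : M) : Th f (of m) = SemidirectProduct.inr (f (of m)) := by
  unfold Th
  rw [lift_of]
  rfl

theorem Th_t : Th f t = SemidirectProduct.inr (f t) * SemidirectProduct.inl (zl f) := by
  unfold Th
  rw [lift_t]

theorem Th_t_left : (Th f t).left = FreeGroup.of (QuotientGroup.mk (f t) : P ⧸ SA f) := by
  rw [Th_t, SemidirectProduct.mul_left, SemidirectProduct.left_inr, SemidirectProduct.right_inr,
    SemidirectProduct.left_inl, one_mul, act_zl]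

theorem Th_t_right : (Th f t).right = f t := by
  rw [Th_t, SemidirectProduct.mul_right, SemidirectProduct.right_inr,
    SemidirectProduct.right_inl, mul_one]

theorem Th_ti_left : (Th f t⁻¹).left = (FreeGroup.of (QuotientGroup.mk 1 : P ⧸ SA f))⁻¹ := by
  rw [map_inv, SemidirectProduct.inv_left, Th_t_left, Th_t_right, map_inv, act_of, smul_mk,
    inv_mul_cancel]

theorem Th_ti_right : (Th f t⁻¹).right = (f t)⁻¹ := by
  rw [map_inv, SemidirectProduct.inv_right, Th_t_right]

/-- the letters of the image of a word -/
noncomputable def lts : P → List (ℤˣ × M) → List ((P ⧸ SA f) × Bool)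
  | _, [] => []
  | q, (u, g) :: L => if u = 1 then
      (QuotientGroup.mk (q * f t), true) :: lts (q * f t * f (of g)) L
    else (QuotientGroup.mk q, false) :: lts (q * (f t)⁻¹ * f (of g)) L

/-- the product of a list -/
noncomputable def pl (L : List (ℤˣ × M)) : HNNExtension M A B φ :=
  (L.map (fun x => t ^ (x.1 : ℤ) * of x.2)).prod

theorem Th_pl (L : List (ℤˣ × M)) : ∀ q : P,
    permAut (P ⧸ SA f) P q (Th f (pl L)).left = FreeGroup.mk (lts f q L) := by
  induction L with
  | nil =>
    intro q
    have h1 : (pl [] : HNNExtension M A B φ) = 1 := rfl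
    rw [h1, map_one, SemidirectProduct.one_left, map_one]
    rfl
  | cons x L ih =>
    intro q
    obtain ⟨u, g⟩ := x
    have h1 : (pl ((u, g) :: L) : HNNExtension M A B φ) = (t ^ (u : ℤ) * of g) * pl L := by
      unfold pl
      rw [List.map_cons, List.prod_cons]
    rw [h1, map_mul, map_mul, SemidirectProduct.mul_left, SemidirectProduct.mul_left,
      SemidirectProduct.mul_right, Th_of, SemidirectProduct.left_inr,
      SemidirectProduct.right_inr, map_one, mul_one, map_mul, act_act]
    rcases Int.units_eq_one_or u with hu | hu
    · subst hu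
      have h2 : (t ^ (((1 : ℤˣ) : ℤ)) : HNNExtension M A B φ) = t := by simp
      have h3 : lts f q ((1, g) :: L) =
          (QuotientGroup.mk (q * f t), true) :: lts f (q * f t * f (of g)) L := by
        rw [lts, if_pos rfl]
      rw [h2, h3, Th_t_left, Th_t_right, ← mul_assoc, ih, act_of, smul_mk]
      rfl
    · subst hu
      have h2 : (t ^ (((-1 : ℤˣ) : ℤ)) : HNNExtension M A B φ) = t⁻¹ := by simp
      have h3 : lts f q ((-1, g) :: L) =
          (QuotientGroup.mk q, false) :: lts f (q * (f t)⁻¹ * f (of g)) L := by
        rw [lts, if_neg (by decide)]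
      rw [h2, h3, Th_ti_left, Th_ti_right, ← mul_assoc, ih, map_inv, act_of, smul_mk, mul_one]
      rfl

theorem lts_red (hf : Function.Injective (f.comp HNNExtension.of)) (L : List (ℤˣ × M))
    (hL : L.IsChain (fun a b => a.2 ∈ HNNExtension.toSubgroup A B a.1 → a.1 = b.1)) :
    ∀ q : P, FreeGroup.IsReduced (lts f q L) := by
  have hfi : ∀ g g' : M, f (of g) = f (of g') → g = g' := fun g g' h => hf h
  induction L with
  | nil =>
    intro q
    exact FreeGroup.IsReduced.nil
  | cons x L ih =>
    intro q
    obtain ⟨u, g⟩ := x
    cases L with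
    | nil =>
      rcases Int.units_eq_one_or u with hu | hu
      · subst hu
        rw [lts, if_pos rfl]
        exact FreeGroup.IsReduced.singleton
      · subst hu
        rw [lts, if_neg (by decide)]
        exact FreeGroup.IsReduced.singleton
    | cons y L =>
      obtain ⟨u', g'⟩ := y
      rw [List.isChain_cons_cons] at hL
      have ih' := ih hL.2
      have hc := hL.1
      rcases Int.units_eq_one_or u with hu | hu
      · subst hu
        rw [lts, if_pos rfl]
        have ih2 := ih' (q * f t * f (of g))
        rcases Int.units_eq_one_or u' with hu' | hu'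
        · subst hu'
          rw [lts, if_pos rfl] at ih2 ⊢
          rw [FreeGroup.isReduced_cons_cons]
          exact ⟨fun _ => rfl, ih2⟩
        · subst hu'
          rw [lts, if_neg (by decide)] at ih2 ⊢
          rw [FreeGroup.isReduced_cons_cons]
          refine ⟨fun h => ?_, ih2⟩
          exfalso
          have h1 := QuotientGroup.eq.1 h
          have h2 : (q * f t)⁻¹ * (q * f t * f (of g)) = f (of g) := by group
          rw [h2] at h1
          obtain ⟨a, ha, hae⟩ := h1
          have h3 : a = g := hfi _ _ hae
          subst h3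
          have h4 : (1 : ℤˣ) = -1 := hc (by exact ha)
          exact absurd h4 (by decide)
      · subst hu
        rw [lts, if_neg (by decide)]
        have ih2 := ih' (q * (f t)⁻¹ * f (of g))
        rcases Int.units_eq_one_or u' with hu' | hu'
        · subst hu'
          rw [lts, if_pos rfl] at ih2 ⊢
          rw [FreeGroup.isReduced_cons_cons]
          refine ⟨fun h => ?_, ih2⟩
          exfalso
          have h1 := QuotientGroup.eq.1 h
          have h2 : q⁻¹ * (q * (f t)⁻¹ * f (of g) * f t) = (f t)⁻¹ * f (of g) * f t := by group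
          rw [h2] at h1
          obtain ⟨a, ha, hae⟩ := h1
          have h3 : f (of (φ ⟨a, ha⟩ : M)) = f (of g) := by
            have h4 := f_rel f (⟨a, ha⟩ : A)
            have h5 : f (of a) = (f t)⁻¹ * f (of g) * f t := hae
            have h6 : f (of (φ ⟨a, ha⟩ : M)) = f t * f (of a) * (f t)⁻¹ := by
              rw [eq_mul_inv_iff_mul_eq]
              exact h4
            rw [h6, h5]
            group
          have h4 := hfi _ _ h3
          have h5 : g ∈ B := by
            rw [← h4]
            exact (φ ⟨a, ha⟩).2
          have h6 : (-1 : ℤˣ) = 1 := hc (by exact h5)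
          exact absurd h6 (by decide)
        · subst hu'
          rw [lts, if_neg (by decide)] at ih2 ⊢
          rw [FreeGroup.isReduced_cons_cons]
          exact ⟨fun _ => rfl, ih2⟩

theorem Th_inj (hf : Function.Injective (f.comp HNNExtension.of)) : Function.Injective (Th f) := by
  rw [injective_iff_map_eq_one]
  intro y hy
  obtain ⟨d⟩ := NormalWord.TransversalPair.nonempty M A B
  obtain ⟨w, hw⟩ : ∃ w : NormalWord d, w.prod φ = y :=
    ⟨NormalWord.equiv φ d y, (NormalWord.equiv φ d).symm_apply_apply y⟩
  have h1 : y = of w.head * pl w.toList := hw.symm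
  have h2 : (Th f y).left = FreeGroup.mk (lts f (f (of w.head)) w.toList) := by
    rw [h1, map_mul, Th_of, SemidirectProduct.mul_left, SemidirectProduct.left_inr,
      SemidirectProduct.right_inr, one_mul, Th_pl]
  rw [hy, SemidirectProduct.one_left] at h2
  have h3 := lts_red f hf w.toList w.chain (f (of w.head))
  have h4 : lts f (f (of w.head)) w.toList = [] := by
    classical
    have h5 := congrArg FreeGroup.toWord h2
    rw [FreeGroup.toWord_one, FreeGroup.toWord_mk, h3.reduce_eq] at h5
    exact h5.symm
  have h5 : w.toList = [] := by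
    cases hl : w.toList with
    | nil => rfl
    | cons x L =>
      rw [hl] at h4
      obtain ⟨u, g⟩ := x
      rw [lts] at h4
      split_ifs at h4
  have h6 : y = of w.head := by
    rw [h1, h5]
    exact mul_one _
  have h7 : f (of w.head) = 1 := by
    have h8 : (Th f y).right = 1 := by rw [hy]; rfl
    rw [h6, Th_of, SemidirectProduct.right_inr] at h8
    exact h8
  have h8 : w.head = 1 := hf (by
    rw [map_one]
    exact h7)
  rw [h6, h8, map_one]

end

theorem t_hnn (h : S_PERM) : S_HNN := by
  intro C hC M P _ _ A B φ f hf hP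
  exact hC.base.of_injective _ _ (Th f) (Th_inj f hf) (h C hC (P ⧸ SA f) P hP)

end Pool.Agent.Y576.FJ
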